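import Pool.Agent.H668.SM.C

set_option autoImplicit false

/-!
Divergent trajectories of the `3x+1` map and affine images `2^a 3^b x + r`.

Author: helper668. Uses the coalescence chain of helper499 and team (Pool/Agent/H499R2/CO) and the
densities of invariant sets (Pool/Agent/H499R2, Pool/Agent/H426R3/CL/Loc).
-/

namespace Pool.Agent.Results.MP_ff4775_nt.AffineImages

open Filter Topology

/-- The accelerated Collatz map on the integers. -/
def T (x : ℤ) : ℤ := if x % 2 = 0 then x / 2 else (3 * x + 1) / 2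

/-- The trajectory of `x` is divergent. -/
def Divergent (x : ℤ) : Prop := Tendsto (fun k : ℕ => |T^[k] x|) atTop atTop

/-- The positive integers with the property `P` have natural density `l`. -/
def HasDensity (P : ℕ → Prop) (l : ℝ) : Prop :=
  Tendsto (fun N : ℕ => ({n : ℕ | 1 ≤ n ∧ n ≤ N ∧ P n}.ncard : ℝ) / N) atTop (𝓝 l)

/-- The triple `(a, b, r)` is small for `n`: `(a + b + |r|) ^ 9 ≤ log₂ n`. -/
def Small (n a b : ℕ) (r : ℤ) : Prop := (a + b + r.natAbs) ^ 9 ≤ Nat.log 2 n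

theorem div_T (x : ℤ) : Divergent x ↔ Divergent (T x) := by
  unfold Divergent
  rw [← tendsto_add_atTop_iff_nat (f := fun k : ℕ => |T^[k] x|) 1]
  simp only [Function.iterate_succ_apply]

theorem div_C (x : ℤ) : Divergent x ↔ Divergent (if x % 2 = 0 then x / 2 else 3 * x + 1) := by
  by_cases h : x % 2 = 0
  · rw [if_pos h, div_T x]
    have : T x = x / 2 := by unfold T; rw [if_pos h]
    rw [this]
  · rw [if_neg h, div_T x, div_T (3 * x + 1)]
    have h1 : T x = (3 * x + 1) / 2 := by unfold T; rw [if_neg h]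
    have h2 : T (3 * x + 1) = (3 * x + 1) / 2 := by unfold T; rw [if_pos (by omega)]
    rw [h1, h2]

/-- (1) There is `K` such that for all `N ≥ 16`, all `m` and both signs `s`, with `t` the integer
part of `(log₂ N) / 4`: for all but `K (m + 1)^4 √(log log N / log N) N` of the positive integers
`n ≤ N` one has `T^t (s n) = T^(t+a) (2^a 3^b s n + r)` for all `a, b, r` with `a + b ≤ m` and
`|r| ≤ m`.
(2) For both signs `s` there is `δ`, positive if and only if some integer of sign `s` has a divergent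
trajectory, such that the `n` for which all the integers `2^a 3^b s n + r`, `(a, b, r)` small for `n`,
have divergent trajectories have density `δ`, and the `n` for which none of them has a divergent
trajectory have density `1 - δ`.
(3) Hence a divergent trajectory exists if and only if, for a sign `s`, the `n` such that all the
integers `2^a 3^b s n + r`, `(a, b, r)` small for `n`, have divergent trajectories have a positive
density. -/
theorem result :
    (∃ K : ℝ, 0 < K ∧ ∀ N : ℕ, 16 ≤ N → ∀ m : ℕ, ∀ s : ℤ, (s = 1 ∨ s = -1) →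
      ({n : ℕ | 1 ≤ n ∧ n ≤ N ∧ ¬ ∀ (a b : ℕ) (r : ℤ), a + b ≤ m → |r| ≤ m →
        T^[Nat.log 2 N / 4] (s * (n : ℤ)) =
          T^[Nat.log 2 N / 4 + a] (2 ^ a * 3 ^ b * (s * (n : ℤ)) + r)}.ncard : ℝ) ≤
        K * ((m : ℝ) + 1) ^ 4 * √ (Real.log (Real.log N) / Real.log N) * N) ∧
    (∀ s : ℤ, (s = 1 ∨ s = -1) → ∃ δ : ℝ, (0 < δ ↔ ∃ x : ℤ, 0 < s * x ∧ Divergent x) ∧
      HasDensity (fun n => ∀ (a b : ℕ) (r : ℤ), Small n a b r →
        Divergent (2 ^ a * 3 ^ b * (s * (n : ℤ)) + r)) δ ∧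
      HasDensity (fun n => ∀ (a b : ℕ) (r : ℤ), Small n a b r →
        ¬ Divergent (2 ^ a * 3 ^ b * (s * (n : ℤ)) + r)) (1 - δ)) ∧
    ((∃ x : ℤ, Divergent x) ↔ ∃ s : ℤ, (s = 1 ∨ s = -1) ∧ ∃ η : ℝ, 0 < η ∧
      HasDensity (fun n => ∀ (a b : ℕ) (r : ℤ), Small n a b r →
        Divergent (2 ^ a * 3 ^ b * (s * (n : ℤ)) + r)) η) := by
  have h2 : ∀ s : ℤ, (s = 1 ∨ s = -1) → ∃ δ : ℝ, (0 < δ ↔ ∃ x : ℤ, 0 < s * x ∧ Divergent x) ∧
      HasDensity (fun n => ∀ (a b : ℕ) (r : ℤ), Small n a b r →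
        Divergent (2 ^ a * 3 ^ b * (s * (n : ℤ)) + r)) δ ∧
      HasDensity (fun n => ∀ (a b : ℕ) (r : ℤ), Small n a b r →
        ¬ Divergent (2 ^ a * 3 ^ b * (s * (n : ℤ)) + r)) (1 - δ) := by
    intro s hs
    have hinv : ∀ y : ℤ, y ∈ {y | Divergent y} ↔
        (if y % 2 = 0 then y / 2 else 3 * y + 1) ∈ {y | Divergent y} := fun y => div_C y
    obtain ⟨δ, h1, -, h3, h4⟩ := Pool.Agent.H668.SM.inv_smooth hs hinv
    refine ⟨δ, h1.trans ?_, h3, h4⟩
    constructor
    · rintro ⟨x, hx, hsx⟩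
      exact ⟨x, hsx, hx⟩
    · rintro ⟨x, hsx, hx⟩
      exact ⟨x, hx, hsx⟩
  refine ⟨Pool.Agent.H668.SM.count_T, h2, ?_, ?_⟩
  · rintro ⟨x, hx⟩
    have hx0 : x ≠ 0 := by
      rintro rfl
      have h0 : ∀ k : ℕ, T^[k] 0 = 0 := by
        intro k
        induction k with
        | zero => rfl
        | succ k ih => rw [Function.iterate_succ_apply]; exact ih
      unfold Divergent at hx
      simp only [h0, abs_zero] at hx
      obtain ⟨k, hk⟩ := (hx.eventually (eventually_ge_atTop 1)).exists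
      omega
    rcases lt_or_gt_of_ne hx0 with h | h
    · obtain ⟨δ, h1, h3, -⟩ := h2 (-1) (Or.inr rfl)
      exact ⟨-1, Or.inr rfl, δ, h1.2 ⟨x, by omega, hx⟩, h3⟩
    · obtain ⟨δ, h1, h3, -⟩ := h2 1 (Or.inl rfl)
      exact ⟨1, Or.inl rfl, δ, h1.2 ⟨x, by omega, hx⟩, h3⟩
  · rintro ⟨s, hs, η, hη, h⟩
    by_contra hcon
    push Not at hcon
    have h1 : ∀ N : ℕ, ({n : ℕ | 1 ≤ n ∧ n ≤ N ∧ ∀ (a b : ℕ) (r : ℤ), Small n a b r →
        Divergent (2 ^ a * 3 ^ b * (s * (n : ℤ)) + r)}.ncard : ℝ) / N = 0 := by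
      intro N
      have h2 : {n : ℕ | 1 ≤ n ∧ n ≤ N ∧ ∀ (a b : ℕ) (r : ℤ), Small n a b r →
        Divergent (2 ^ a * 3 ^ b * (s * (n : ℤ)) + r)} = ∅ := by
        ext n
        simp only [Set.mem_ofPred_eq, Set.mem_empty_iff_false, iff_false]
        rintro ⟨-, -, h3⟩
        exact hcon _ (h3 0 0 0 (by simp [Small]))
      rw [h2]
      simp
    unfold HasDensity at h
    simp_rw [h1] at h
    have := tendsto_nhds_unique h tendsto_const_nhds
    linarith

end Pool.Agent.Results.MP_ff4775_nt.AffineImages
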