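import Pool.Agent.H828R3.GP.Three

set_option autoImplicit false

/-! Divergent trajectories: power savings for the number and for the density of divergent integers whose
merging class has no small element. -/

namespace Pool.Agent.Results.MP_ff4775_nt.DivergentPowerSaving

open Filter Topology Pool.Agent.H499R2.ND

/-- the `3x+1` map on the integers -/
def T (x : ℤ) : ℤ := if x % 2 = 0 then x / 2 else (3 * x + 1) / 2

/-- the trajectory of `n` is divergent -/
def Divergent (n : ℤ) : Prop := Tendsto (fun k : ℕ => |T^[k] n|) atTop atTop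

/-- the trajectories of `m` and `n` merge -/
def Merge (m n : ℤ) : Prop := ∃ i j : ℕ, T^[i] m = T^[j] n

/-- number of the integers `n` with `|n| ≤ X` and the property `P` -/
noncomputable def count (P : ℤ → Prop) (X : ℝ) : ℝ := ({n : ℤ | |(n : ℝ)| ≤ X ∧ P n}.ncard : ℝ)

/-- among the integers of sign `s` (`s = 1` or `s = -1`) those in `A` have the natural density `δ` -/
def HasDensity (s : ℤ) (A : Set ℤ) (δ : ℝ) : Prop :=
  Tendsto (fun N : ℕ => ({n : ℤ | 0 < s * n ∧ s * n ≤ N ∧ n ∈ A}.ncard : ℝ) / N) atTop (𝓝 δ)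

theorem T_eq : T = Td 1 := rfl

theorem div_step (n : ℤ) : Divergent n ↔ Divergent (T n) := by
  unfold Divergent
  have : (fun k : ℕ => |T^[k] (T n)|) = fun k : ℕ => (fun k : ℕ => |T^[k] n|) (k + 1) := by
    funext k
    simp only [Function.iterate_succ_apply]
  rw [this, tendsto_add_atTop_iff_nat (f := fun k : ℕ => |T^[k] n|) 1]

theorem div_iter (k : ℕ) (n : ℤ) : Divergent n ↔ Divergent (T^[k] n) := by
  induction k generalizing n with
  | zero => rfl
  | succ k ih => rw [Function.iterate_succ_apply, ← ih, ← div_step]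

theorem merge_iff (m n : ℤ) : Merge m n ↔ m ∈ Mg (Td 1) n := Iff.rfl

/-- For every `0 < c < 1 - H(log_3 2)` (`H` the binary entropy in bits; `1 - H(log_3 2) > 0.049`) there is
`C` such that for all `y ≥ 1`: (1) for all `X ≥ 1` at most `C X / y^c` integers `n` with `|n| ≤ X` are
divergent and merge with no integer of absolute value `≤ y`; (2) if no integer of absolute value `≤ y` is
divergent, then for all `X ≥ 1` at most `C X / y^c` integers `n` with `|n| ≤ X` are divergent; (3) for both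
signs `s` the divergent integers of sign `s` that merge with no integer of absolute value `≤ y` have a
natural density `≤ C / y^c`. -/
theorem result : 0.049 < 1 - Real.binEntropy (Real.log 2 / Real.log 3) / Real.log 2 ∧
    ∀ c : ℝ, 0 < c → c < 1 - Real.binEntropy (Real.log 2 / Real.log 3) / Real.log 2 →
      ∃ C : ℝ, 0 < C ∧ ∀ y : ℝ, 1 ≤ y →
        (∀ X : ℝ, 1 ≤ X →
          count (fun n => Divergent n ∧ ∀ m : ℤ, Merge m n → y < |(m : ℝ)|) X ≤ C * X / y ^ c) ∧
        ((∀ m : ℤ, |(m : ℝ)| ≤ y → ¬ Divergent m) → ∀ X : ℝ, 1 ≤ X →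
          count Divergent X ≤ C * X / y ^ c) ∧
        (∀ s : ℤ, (s = 1 ∨ s = -1) → ∃ δ : ℝ, δ ≤ C / y ^ c ∧
          HasDensity s {n | Divergent n ∧ ∀ m : ℤ, Merge m n → y < |(m : ℝ)|} δ) := by
  refine ⟨by have := Pool.Agent.H319R2.beta_lt; unfold Pool.Agent.H319R2.beta at this; linarith, ?_⟩
  intro c hc0 hc
  obtain ⟨K, hK, h⟩ := Pool.Agent.H828R3.GP.three odd_one hc0 hc
  obtain ⟨K1, hK1, h1⟩ := Pool.Agent.H828R3.GP.tail3 odd_one hc0 hc (s := 1) (Or.inl rfl)
  obtain ⟨K2, hK2, h2⟩ := Pool.Agent.H828R3.GP.tail3 odd_one hc0 hc (s := -1) (Or.inr rfl)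
  refine ⟨K + K1 + K2, by positivity, fun y hy => ?_⟩
  have hyc : 0 < y ^ c := Real.rpow_pos_of_pos (by linarith) _
  have hle : K / y ^ c ≤ (K + K1 + K2) / y ^ c := div_le_div_of_nonneg_right (by linarith) hyc.le
  have hle1 : K1 / y ^ c ≤ (K + K1 + K2) / y ^ c := div_le_div_of_nonneg_right (by linarith) hyc.le
  have hle2 : K2 / y ^ c ≤ (K + K1 + K2) / y ^ c := div_le_div_of_nonneg_right (by linarith) hyc.le
  have key : ∀ P : ℤ → Prop, (∀ n : ℤ, P n → ∀ k : ℕ, y < |((T^[k] n : ℤ) : ℝ)|) → ∀ X : ℝ, 1 ≤ X →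
      count P X ≤ (K + K1 + K2) * X / y ^ c := by
    intro P hP X hX
    have hfin : {x : ℤ | |(x : ℝ)| ≤ X ∧ ∀ n : ℕ, y < |(((Td 1)^[n] x : ℤ) : ℝ)|}.Finite := by
      apply (Set.finite_Icc (-⌈X⌉) ⌈X⌉).subset
      rintro x ⟨hx, -⟩
      have h1 := abs_le.1 hx
      have h2 := Int.le_ceil X
      rw [Set.mem_Icc]
      constructor
      · have : (-(⌈X⌉ : ℤ) : ℝ) ≤ x := by linarith
        exact_mod_cast this
      · have : (x : ℝ) ≤ (⌈X⌉ : ℤ) := by linarith
        exact_mod_cast this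
    have h3 : count P X ≤ K * X / y ^ c := by
      refine le_trans ?_ (h X y hX hy)
      unfold count
      have hsub : {n : ℤ | |(n : ℝ)| ≤ X ∧ P n} ⊆
          {x : ℤ | |(x : ℝ)| ≤ X ∧ ∀ n : ℕ, y < |(((Td 1)^[n] x : ℤ) : ℝ)|} := by
        rintro n ⟨h4, h5⟩
        exact ⟨h4, hP n h5⟩
      exact_mod_cast Set.ncard_le_ncard hsub hfin
    refine h3.trans ?_
    apply div_le_div_of_nonneg_right _ hyc.le
    nlinarith
  refine ⟨key _ ?_, fun hver => key _ ?_, ?_⟩
  · rintro n ⟨_, hn⟩ k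
    apply hn
    exact ⟨0, k, rfl⟩
  · intro n hn k
    by_contra hcon
    push Not at hcon
    exact hver _ hcon ((div_iter k n).1 hn)
  · intro s hs
    have hinv : Inv 1 {n : ℤ | Divergent n ∧ ∀ m : ℤ, Merge m n → y < |(m : ℝ)|} := by
      intro x
      change (Divergent x ∧ _) ↔ (Divergent (T x) ∧ _)
      rw [← div_step x]
      apply and_congr Iff.rfl
      constructor
      · intro h1 m hm
        apply h1 m
        rw [merge_iff] at hm ⊢
        exact Mg_trans hm ((Mg_step _ x x).1 (Mg_self _ x))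
      · intro h1 m hm
        apply h1 m
        rw [merge_iff] at hm ⊢
        exact Mg_trans hm (Mg_symm ((Mg_step _ x x).1 (Mg_self _ x)))
    obtain ⟨l, _, _, hl⟩ := dens_side odd_one isCoprime_one_left hs hinv
    refine ⟨l, ?_, HD_ncard hs hl⟩
    rcases hs with rfl | rfl
    · exact (h1 y hy _ hinv (fun x hx => hx.2 x (Mg_self (Td 1) x)) l hl).trans hle1
    · exact (h2 y hy _ hinv (fun x hx => hx.2 x (Mg_self (Td 1) x)) l hl).trans hle2

end Pool.Agent.Results.MP_ff4775_nt.DivergentPowerSaving
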