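import Mathlib
import Pool.Agent.H547R3.Sub.Tqk2

set_option autoImplicit false

namespace Pool.Agent.Results.MP_ff4775_nt.SimpleWindows

/-- The `3x+1` map on the integers. -/
def T (x : ℤ) : ℤ := if x % 2 = 0 then x / 2 else (3 * x + 1) / 2

/-- The trajectory of `x` is divergent: `|T^k x|` tends to infinity. -/
def Divergent (x : ℤ) : Prop := Filter.Tendsto (fun k => |T^[k] x|) Filter.atTop Filter.atTop

/-- The factor `w a, w (a+1), ..., w (b-1)` of the sequence `w` has period `π`. -/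
def HasPeriod (w : ℕ → ℤ) (π a b : ℕ) : Prop := ∀ j, a ≤ j → j + π < b → w (j + π) = w j

/-- The factor `w a, w (a+1), ..., w (b-1)` of the sequence `w` is a concatenation of `s` words (cut
at `a = t 0 ≤ t 1 ≤ ... ≤ t s = b`), each of which has some period `π` with `1 ≤ π ≤ ℓ`. -/
def Splits (w : ℕ → ℤ) (ℓ s a b : ℕ) : Prop :=
  ∃ t : ℕ → ℕ, t 0 = a ∧ t s = b ∧ (∀ i < s, t i ≤ t (i + 1)) ∧
    ∀ i < s, ∃ π, 1 ≤ π ∧ π ≤ ℓ ∧ HasPeriod w π (t i) (t (i + 1))

open Pool.Agent.H547R3.Sub in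
lemma T_eq : T = Tm (3 : ℕ) 1 := by
  funext x; simp [T, Tm]

open Pool.Agent.H547R3.Sub in
lemma dec_of_splits {x : ℤ} {ℓ s a b : ℕ} (h : Splits (fun i => T^[i] x % 2) ℓ s a b) :
    Dec (par (3 : ℕ) 1 x) ℓ s a b := by
  obtain ⟨t, h0, hm, hmono, hper⟩ := h
  refine ⟨t, h0, hm, hmono, fun i hi => ?_⟩
  obtain ⟨π, h1, h2, h3⟩ := hper i hi
  refine ⟨π, h1, h2, fun j hj1 hj2 => ?_⟩
  have h4 := h3 j hj1 hj2
  simp only [T_eq] at h4
  exact par_int _ _ _ _ _ h4

/-- a divergent trajectory has no repetition -/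
lemma no_rep {x : ℤ} (h : Divergent x) {j π : ℕ} (hπ : 1 ≤ π) : T^[j + π] x ≠ T^[j] x := by
  intro h1
  have h2 : ∀ N, T^[j + π * N] x = T^[j] x := by
    intro N
    induction N with
    | zero => rfl
    | succ N ih =>
      rw [show j + π * (N + 1) = π * N + (j + π) by ring, Function.iterate_add_apply, h1,
        ← Function.iterate_add_apply, add_comm, ih]
  obtain ⟨N, hN⟩ := Filter.eventually_atTop.1 (h.eventually_gt_atTop |T^[j] x|)
  have h3 := hN (j + π * N) (by nlinarith)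
  rw [h2] at h3
  exact lt_irrefl _ h3

/-- growth of a trajectory -/
lemma size (x : ℤ) (a : ℕ) : (|(T^[a] x : ℝ)| + 1) ≤ (3 / 2) ^ a * (|(x : ℝ)| + 1) := by
  induction a with
  | zero => simp
  | succ a ih =>
    rw [Function.iterate_succ_apply']
    set y := T^[a] x with hy
    have h1 : |((T y : ℤ) : ℝ)| + 1 ≤ 3 / 2 * (|(y : ℝ)| + 1) := by
      have h0 := abs_nonneg (y : ℝ)
      unfold T
      split_ifs with h
      · obtain ⟨z, hz⟩ : ∃ z, y = 2 * z := ⟨y / 2, by omega⟩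
        rw [hz, show 2 * z / 2 = z by omega]
        push_cast
        rw [abs_mul, abs_of_pos (by norm_num : (0 : ℝ) < 2)]
        have := abs_nonneg (z : ℝ)
        linarith
      · obtain ⟨z, hz⟩ : ∃ z, 3 * y + 1 = 2 * z := ⟨(3 * y + 1) / 2, by omega⟩
        rw [hz, show 2 * z / 2 = z by omega]
        have h2 : (z : ℝ) = (3 * y + 1) / 2 := by
          have : (3 * (y : ℝ) + 1) = 2 * z := by exact_mod_cast hz
          linarith
        rw [h2, abs_div, abs_of_pos (by norm_num : (0 : ℝ) < 2)]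
        have h3 := abs_add_le (3 * (y : ℝ)) 1
        rw [abs_mul, abs_of_pos (by norm_num : (0 : ℝ) < 3), abs_one] at h3
        linarith
    calc _ ≤ 3 / 2 * (|(y : ℝ)| + 1) := h1
      _ ≤ 3 / 2 * ((3 / 2) ^ a * (|(x : ℝ)| + 1)) := by linarith
      _ = _ := by ring

open Pool.Agent.H547R3.Sub in
/-- Let `κ > log_2 3`. For every `s` there are `ε > 0` and `A` such that for every integer `x` with a
divergent trajectory and all `a ≥ A (1 + log (|x| + 1))`, `b ≥ κ a` and `ℓ ≤ ε b`, the parities of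
`T^a x, ..., T^(b-1) x` do not form a concatenation of `s` words each having a period at most `ℓ`. -/
theorem result (κ : ℝ) (hκ : Real.logb 2 3 < κ) (s : ℕ) :
    ∃ ε : ℝ, 0 < ε ∧ ∃ A : ℝ, ∀ x : ℤ, Divergent x → ∀ a b ℓ : ℕ,
      A * (1 + Real.log (|(x : ℝ)| + 1)) ≤ a → κ * a ≤ b → (ℓ : ℝ) ≤ ε * b →
      ¬ Splits (fun i => T^[i] x % 2) ℓ s a b := by
  have hl2 : 0 < Real.log 2 := Real.log_pos (by norm_num)
  have hl32 : 0 < Real.log (3 / 2) := Real.log_pos (by norm_num)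
  have hl3 : Real.log 3 = Real.log (3 / 2) + Real.log 2 := by
    rw [← Real.log_mul (by norm_num) (by norm_num)]; norm_num
  have hκ' : Real.log (3 / 2) < (κ - 1) * Real.log 2 := by
    rw [Real.logb, div_lt_iff₀ hl2] at hκ
    linarith
  -- choose `η`
  set ρ : ℝ := (κ - 1) * Real.log 2 / Real.log (3 / 2) with hρ
  have hρ1 : 1 < ρ := by rw [hρ, one_lt_div hl32]; exact hκ'
  set η : ℝ := (ρ - 1) / 2 with hη
  have hη0 : 0 < η := by rw [hη]; linarith
  have hρη : (1 + η) * Real.log (3 / 2) < (κ - 1) * Real.log 2 := by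
    have : 1 + η < ρ := by rw [hη]; linarith
    rw [hρ, lt_div_iff₀ hl32] at this
    exact this
  set δ : ℝ := (κ - 1) * Real.log 2 - (1 + η) * Real.log (3 / 2) with hδ
  have hδ0 : 0 < δ := by rw [hδ]; linarith
  have hκ1 : 0 < κ - 1 := by
    by_contra h
    push Not at h
    have := mul_nonpos_of_nonpos_of_nonneg h hl2.le
    linarith
  obtain ⟨ε, hε, n0, hn0⟩ :=
    init_gen2 (q := 3) Nat.prime_three (by norm_num) 1 (by norm_num) s η hη0
  have hκ0 : 0 < κ := by linarith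
  refine ⟨ε * ((κ - 1) / κ), by positivity, (1 + η) / δ + n0 / (κ - 1),
    fun x hx a b ℓ ha hb hℓ hS => ?_⟩
  set Lx : ℝ := Real.log (|(x : ℝ)| + 1) with hLx
  have hLx0 : 0 ≤ Lx := Real.log_nonneg (by have := abs_nonneg (x : ℝ); linarith)
  have haR : (0 : ℝ) ≤ a := Nat.cast_nonneg _
  have hab : a ≤ b := by
    have : (a : ℝ) ≤ b := by nlinarith
    exact_mod_cast this
  obtain ⟨n, rfl⟩ := Nat.exists_eq_add_of_le hab
  have hn : (κ - 1) * a ≤ n := by push_cast at hb; linarith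
  have h1 : (0 : ℝ) ≤ (1 + η) / δ := by positivity
  have h2 : (0 : ℝ) ≤ n0 / (κ - 1) := by positivity
  have ha1 : (n0 : ℝ) / (κ - 1) ≤ a := by nlinarith
  have ha2 : (1 + η) / δ * Lx ≤ a := by nlinarith
  have hn0n : n0 ≤ n := by
    rw [div_le_iff₀ hκ1] at ha1
    have : (n0 : ℝ) ≤ n := by linarith
    exact_mod_cast this
  have hsize := size x a
  set y := T^[a] x with hy
  have hylog : Real.log |(y : ℝ)| ≤ a * Real.log (3 / 2) + Lx := by
    rcases eq_or_ne y 0 with h0 | h0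
    · rw [h0]; simp only [Int.cast_zero, abs_zero, Real.log_zero]; positivity
    · have hy0 : (0 : ℝ) < |(y : ℝ)| := by
        have : (y : ℝ) ≠ 0 := by exact_mod_cast h0
        positivity
      have h3 : Real.log |(y : ℝ)| ≤ Real.log ((3 / 2) ^ a * (|(x : ℝ)| + 1)) :=
        Real.log_le_log hy0 (by linarith)
      rw [Real.log_mul (by positivity) (by positivity), Real.log_pow] at h3
      exact h3
  have hfin : (1 + η) * Real.logb 2 |(y : ℝ)| ≤ n := by
    rw [Real.logb, ← mul_div_assoc, div_le_iff₀ hl2]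
    have h3 : (1 + η) * Real.log |(y : ℝ)| ≤ (1 + η) * (a * Real.log (3 / 2) + Lx) :=
      mul_le_mul_of_nonneg_left hylog (by linarith)
    have h4 : (1 + η) * Lx ≤ a * δ := by
      rw [div_mul_eq_mul_div, div_le_iff₀ hδ0] at ha2; exact ha2
    have h5 : (κ - 1) * a * Real.log 2 ≤ n * Real.log 2 :=
      mul_le_mul_of_nonneg_right hn hl2.le
    rw [hδ] at h4
    nlinarith
  have hy' : (Tm (3 : ℕ) 1)^[a] x = y := by rw [hy, T_eq]
  have hℓn : (ℓ : ℝ) ≤ ε * n := by
    have g1 : (κ - 1) / κ * ((a : ℝ) + n) ≤ n := by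
      rw [div_mul_eq_mul_div, div_le_iff₀ hκ0]
      linarith
    have g2 := mul_le_mul_of_nonneg_left g1 hε.le
    push_cast at hℓ
    linarith
  obtain ⟨j, π, -, h5, -, -, h6⟩ :=
    hn0 x a n ℓ hn0n hℓn (by rw [hy']; exact hfin) (dec_of_splits hS)
  rw [← T_eq] at h6
  exact no_rep hx h5 h6

end Pool.Agent.Results.MP_ff4775_nt.SimpleWindows
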